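import Pool.Agent.Q96.ConeC

/-!
# Norm convergence of increasing nets with a supremum does not imply property (OC)

The space is `c`, the space of convergent real sequences, with the cone of all nonnegative
sequences `f` with `f 0 ≤ lim f`.
-/

set_option autoImplicit false

namespace Pool.Agent.Results.MP_5ab9c0_an.SupremumConvergenceNotOC

open Q96.ConeC Filter Topology

universe v

/-- **Negative answer to Q1.**  There is a real Banach space `X` with a closed cone `K` (normal,
and with nonempty interior) in which every increasing net that has a supremum converges in norm to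
it, while some increasing sequence that is order bounded from above is not norm convergent. -/
theorem result :
    ∃ (X : Type) (_ : NormedAddCommGroup X) (_ : NormedSpace ℝ X) (_ : CompleteSpace X)
      (K : Set X), IsClosedCone K ∧ IsNormalCone K ∧ (interior K).Nonempty ∧
      (∀ (J : Type v) [Preorder J] [IsDirected J (· ≤ ·)] [Nonempty J] (x : J → X),
        Increasing K x → ∀ s : X, Supremum K x s → Tendsto x atTop (𝓝 s)) ∧
      ∃ x : ℕ → X, Increasing K x ∧ (∃ u : X, UpperBound K x u) ∧
        ¬ ∃ b : X, Tendsto x atTop (𝓝 b) :=
  ⟨C, inferInstance, inferInstance, inferInstance, cone, isClosedCone_cone, isNormalCone_cone,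
    interior_nonempty, fun _ _ _ _ x hx s hs => net_tendsto x hx s hs,
    seq, increasing_seq, ⟨0, minimal_seq.1⟩, fun ⟨b, hb⟩ => not_tendsto_seq b hb⟩

end Pool.Agent.Results.MP_5ab9c0_an.SupremumConvergenceNotOC
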